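import Pool.Agent.H29.QP.Fifteen

/-!
# `Q 21 = 21`: an explicit partition of the `21 × 21` board into twenty-one patterns

The list gives, for each of the twenty-one colours, the columns of its queens row by row.  The colour `C` of the square
`(i, j)` satisfies `⌊C / 3⌋ = j + φ i (mod 7)` with `φ (20 - i) = - φ i`.
-/

set_option autoImplicit false
set_option maxRecDepth 100000

namespace Pool.Agent.H42.NQ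

open Pool.Agent.H44.NQ Pool.Agent.H29.QP

/-- twenty-one disjoint patterns on the `21 × 21` board -/
def l21 : List (List ℕ) :=
  [[6, 13, 3, 19, 14, 4, 10, 1, 16, 12, 0, 9, 5, 20, 11, 17, 7, 2, 18, 15, 8],
   [13, 20, 10, 5, 0, 11, 17, 8, 2, 19, 7, 16, 12, 6, 18, 3, 14, 9, 4, 1, 15],
   [20, 6, 17, 12, 7, 18, 3, 15, 9, 5, 14, 2, 19, 13, 4, 10, 0, 16, 11, 8, 1],
   [0, 14, 11, 6, 1, 12, 18, 9, 3, 20, 8, 17, 13, 7, 19, 4, 15, 10, 5, 2, 16],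
   [7, 0, 18, 13, 8, 19, 4, 16, 10, 6, 15, 3, 20, 14, 5, 11, 1, 17, 12, 9, 2],
   [14, 7, 4, 20, 15, 5, 11, 2, 17, 13, 1, 10, 6, 0, 12, 18, 8, 3, 19, 16, 9],
   [1, 15, 12, 7, 2, 13, 19, 10, 4, 0, 9, 18, 14, 8, 20, 5, 16, 11, 6, 3, 17],
   [8, 1, 19, 14, 9, 20, 5, 17, 11, 7, 16, 4, 0, 15, 6, 12, 2, 18, 13, 10, 3],
   [15, 8, 5, 0, 16, 6, 12, 3, 18, 14, 2, 11, 7, 1, 13, 19, 9, 4, 20, 17, 10],
   [2, 16, 13, 8, 3, 14, 20, 11, 5, 1, 10, 19, 15, 9, 0, 6, 17, 12, 7, 4, 18],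
   [9, 2, 20, 15, 10, 0, 6, 18, 12, 8, 17, 5, 1, 16, 7, 13, 3, 19, 14, 11, 4],
   [16, 9, 6, 1, 17, 7, 13, 4, 19, 15, 3, 12, 8, 2, 14, 20, 10, 5, 0, 18, 11],
   [3, 17, 14, 9, 4, 15, 0, 12, 6, 2, 11, 20, 16, 10, 1, 7, 18, 13, 8, 5, 19],
   [10, 3, 0, 16, 11, 1, 7, 19, 13, 9, 18, 6, 2, 17, 8, 14, 4, 20, 15, 12, 5],
   [17, 10, 7, 2, 18, 8, 14, 5, 20, 16, 4, 13, 9, 3, 15, 0, 11, 6, 1, 19, 12],
   [4, 18, 15, 10, 5, 16, 1, 13, 7, 3, 12, 0, 17, 11, 2, 8, 19, 14, 9, 6, 20],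
   [11, 4, 1, 17, 12, 2, 8, 20, 14, 10, 19, 7, 3, 18, 9, 15, 5, 0, 16, 13, 6],
   [18, 11, 8, 3, 19, 9, 15, 6, 0, 17, 5, 14, 10, 4, 16, 1, 12, 7, 2, 20, 13],
   [5, 19, 16, 11, 6, 17, 2, 14, 8, 4, 13, 1, 18, 12, 3, 9, 20, 15, 10, 0, 7],
   [12, 5, 2, 18, 13, 3, 9, 0, 15, 11, 20, 8, 4, 19, 10, 16, 6, 1, 17, 7, 14],
   [19, 12, 9, 4, 20, 10, 16, 7, 1, 18, 6, 15, 11, 5, 17, 2, 13, 8, 3, 14, 0]]

theorem packs21 : Packs 21 21 := packs_of_chk l21 (by decide +kernel)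

theorem q21 : Q 21 = 21 := le_antisymm (q_le (by norm_num)) (le_q (by norm_num) packs21)

end Pool.Agent.H42.NQ
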